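import Mathlib
import Pool.Agent.Q92.AR.Use
import Pool.Agent.Q92.AR.All
import Pool.Agent.Q7.DB.Main

/-!
# Zeros and poles of Artin L-functions occur only in characters of bounded degree

`M/K` is a Galois extension of number fields with group `M ≃ₐ[K] M`;
`Pool.Agent.H541R3.ART.Irr G` is the set of irreducible complex characters of the group `G`.

`Pool.Agent.Q92.AR.artinL M χ` is the Artin L-function `L(s, χ)` of a class function `χ` of the Galois
group, for `Re s > 1`: `exp ∑ χ(Frob_v ^ n) / (n q_v ^ (n s))` over `n ≥ 1` and the primes `v` of `K` which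
are unramified in `M`. The Euler factors of the finitely many ramified primes, which are left out,
have no zeros and poles for `Re s > 0`. `Pool.Agent.Q92.AR.cont f` is the meromorphic continuation to
`ℂ` of a function `f` given for `Re s > 1`; `NumberField.dedekindZeta M` is the Dedekind zeta function
of `M`. Nothing is assumed: the continuations exist by Artin's reciprocity law, Hecke's theorem and
Brauer's induction theorem, which are proved in the library `Pool.Agent.Q92.AR`.
-/

set_option autoImplicit false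

open Pool.Agent.H541R3.ART Pool.Agent.W446.AS Pool.Agent.Q7.DB Pool.Agent.Q92.AR

/-- Let `M/K` be a Galois extension of number fields, let `Re s₀ > 0`, `s₀ ≠ 1`, let `r` be the order
of the Dedekind zeta function of `M` at `s₀`, and let `B = r ^ (1 + ⌊2 log₂ r⌋)`.
(1) `L(s, χ)` has a meromorphic continuation to `ℂ` for all irreducible characters `χ`.
(2) If `R` is a solvable normal subgroup of the Galois group and `L(s, χ)` has a zero or a pole at
`s₀`, then `χ(1) ^ 2 ≤ [Gal(M/K) : R] B ^ 2`.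
(3) If the Galois group is solvable, then `L(s, χ)` is holomorphic and nonzero at `s₀` for every
irreducible character `χ` with `χ(1) > B`. -/
theorem Pool.Agent.Results.MP_d2121a_nt.BoundedDegrees.result
    (K M : Type) [Field K] [NumberField K] [Field M] [NumberField M] [Algebra K M] [IsGalois K M]
    (s₀ : ℂ) (h0 : 0 < s₀.re) (h1 : s₀ ≠ 1) (r : ℕ)
    (hr : meromorphicOrderAt (cont (NumberField.dedekindZeta M)) s₀ = (r : WithTop ℤ)) :
    (∀ χ ∈ Irr (M ≃ₐ[K] M), Continues (cont (artinL M χ)) (artinL M χ)) ∧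
    (∀ R : Subgroup (M ≃ₐ[K] M), R.Normal → Group.IsSolvable R →
      ∀ χ ∈ Irr (M ≃ₐ[K] M), meromorphicOrderAt (cont (artinL M χ)) s₀ ≠ 0 →
        ∃ d : ℕ, χ 1 = d ∧ d ^ 2 ≤ R.index * (r ^ (1 + Nat.log 2 (r ^ 2))) ^ 2) ∧
    (Group.IsSolvable (M ≃ₐ[K] M) →
      ∀ χ ∈ Irr (M ≃ₐ[K] M), ∀ d : ℕ, χ 1 = d → r ^ (1 + Nat.log 2 (r ^ 2)) < d →
        meromorphicOrderAt (cont (artinL M χ)) s₀ = 0) := by
  have hC := continued (K := K) (M := M) h0 h1
  have key : ∀ R : Subgroup (M ≃ₐ[K] M), R.Normal → Group.IsSolvable R →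
      ∀ χ ∈ Irr (M ≃ₐ[K] M), meromorphicOrderAt (cont (artinL M χ)) s₀ ≠ 0 →
        ∃ d : ℕ, χ 1 = d ∧ d ^ 2 ≤ R.index * (r ^ (1 + Nat.log 2 (r ^ 2))) ^ 2 := by
    intro R hR hRs χ hχ hne
    set A := ArtinData.ofExtension hC with hA
    have hr' : meromorphicOrderAt (A.Lin ⊥ 1) s₀ = (r : WithTop ℤ) := (lin_bot hC h0).trans hr
    classical
    have : Fintype (M ≃ₐ[K] M) := Fintype.ofFinite _
    obtain ⟨d, -, hd⟩ := irr_deg_pos hχ
    refine ⟨d, hd, ?_⟩
    refine deg_main _ _ rfl R hR hRs (theta A.ord) A.isHeilbronn (theta_virt _) r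
      (A.theta_one hr') χ hχ ?_ d hd
    intro h3
    apply hne
    have h1 := A.order_eq hχ (k := 0) (by rw [sum_eq_pr, h3]; simp)
    exact_mod_cast h1
  refine ⟨fun χ hχ => cont_spec (hC.brauer χ hχ), key, ?_⟩
  intro hs χ hχ d hd hlt
  by_contra hne
  obtain ⟨d', hd', h1⟩ := key ⊤ inferInstance inferInstance χ hχ hne
  rw [Subgroup.index_top, one_mul] at h1
  have h2 : d' = d := by
    rw [hd] at hd'
    exact_mod_cast hd'.symm
  rw [h2] at h1
  exact absurd ((Nat.pow_le_pow_iff_left two_ne_zero).mp h1) (not_le.mpr hlt)
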