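import Mathlib
import Pool.Agent.Q92.AR.Use
import Pool.Agent.Q92.AR.All
import Pool.Agent.Q7.TZ.Dich
import Pool.Agent.Q7.RA.Shp

/-!
# Artin's holomorphy conjecture at double zeros of Dedekind zeta functions, for all Galois groups

`M/K` is a Galois extension of number fields with group `M ≃ₐ[K] M`, an arbitrary finite group;
`Pool.Agent.H541R3.ART.Irr G` is the set of irreducible complex characters of the group `G`.

`Pool.Agent.Q92.AR.artinL M χ` is the Artin L-function `L(s, χ)` of a class function `χ` of the Galois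
group, for `Re s > 1`: `exp ∑ χ(Frob_v ^ n) / (n q_v ^ (n s))` over `n ≥ 1` and the primes `v` of `K` which
are unramified in `M`. The Euler factors of the finitely many ramified primes, which are left out,
have no zeros and poles for `Re s > 0`. `Pool.Agent.Q92.AR.cont f` is the meromorphic continuation to
`ℂ` of a function `f` given for `Re s > 1`; `NumberField.dedekindZeta M` is the Dedekind zeta function
of `M`. The continuations exist by Artin's reciprocity law, Hecke's theorem and Brauer's induction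
theorem, which are proved in the library `Pool.Agent.Q92.AR`. `LanglandsTunnell M s₀` is the theorem of
Langlands and Tunnell for the subgroups of the Galois group; it is used in the last part of (1)
only, everything else is proved without assumption.

`Pool.Agent.Y788.res G` is the intersection of the derived series of `G`; it is the smallest normal
subgroup with solvable quotient, and it is perfect. For a linear character `D` of `G` and a function
`χ` on `G`, `Pool.Agent.Q7.TZ.dual D χ` is the function `g ↦ D g * χ g⁻¹`, and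
`Pool.Agent.Q7.TZ.Symplectic D χ` says that `dual D χ = χ` and that the twisted Frobenius-Schur
indicator `|G|⁻¹ ∑ χ (g ^ 2) * (D g)⁻¹` is `-1` (for `D = 1`: `χ` is symplectic).
-/

set_option autoImplicit false

open Pool.Agent.H541R3.ART Pool.Agent.H302R2 Pool.Agent.W446.AS Pool.Agent.Y788 Pool.Agent.Y788.V
  Pool.Agent.Q7.TZ Pool.Agent.Q7.RA Pool.Agent.Q92.AR

/-- Let `M/K` be a Galois extension of number fields with an arbitrary group `G`, let `Re s₀ > 0`,
`s₀ ≠ 1`, let the Dedekind zeta function of `M` have order `r ≤ 2` at `s₀`, and let `n χ` be the order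
of `L(s, χ)` at `s₀`.
(1) If no quotient of `res G` has exactly one involution, then `n χ = 0` for all irreducible `χ` which
are nontrivial on `res G`; and by the theorem of Langlands and Tunnell `n χ ≥ 0` for all irreducible
`χ`.
(2) If `n χ ≠ 0` for some irreducible `χ` which is nontrivial on `res G`, then `r = 2` and `res G` has
a normal subgroup `N` such that `res G / N` has exactly one involution and such that `N` acts
trivially and this involution acts as `-1` in all irreducible `χ` with `n χ ≠ 0`.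
(3) Let `r = 2`. Then there is a linear character `D` of `G` such that `n (dual D χ) = n χ` for all
`χ`, and one of the following holds: `n μ = 2` for a linear character `μ` with `μ ^ 2 = D`, and all
other `n χ` are `0`; or `n χ₀ = 1` for one `χ₀` which is symplectic for `D`, and all other `n χ` are
`0` except for at most two which are `-1`; or `n χ₀ = n (dual D χ₀) = 1` for one `χ₀ ≠ dual D χ₀`, and
all other `n χ` are `0` except for at most one which is `-1`. The characters with `n χ = -1` are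
symplectic for `D`. Every involution `t` of `G` with `D t = 1` (and every `t` with `D t = 1` for which
`t ^ 2` is in the kernels) acts by one and the same sign in all `χ` with `n χ ≠ 0`. -/
theorem Pool.Agent.Results.MP_d2121a_nt.DoubleZerosAllGroups.result
    (K M : Type) [Field K] [NumberField K] [Field M] [NumberField M] [Algebra K M] [IsGalois K M]
    (s₀ : ℂ) (h0 : 0 < s₀.re) (h1 : s₀ ≠ 1) (r : ℕ) (hr2 : r ≤ 2)
    (hr : meromorphicOrderAt (cont (NumberField.dedekindZeta M)) s₀ = (r : WithTop ℤ)) :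
    ∃ n : ((M ≃ₐ[K] M) → ℂ) → ℤ,
      (∀ χ ∈ Irr (M ≃ₐ[K] M), Continues (cont (artinL M χ)) (artinL M χ) ∧
        meromorphicOrderAt (cont (artinL M χ)) s₀ = ((n χ : ℤ) : WithTop ℤ)) ∧
      (NoSingleInvolution (M ≃ₐ[K] M) →
        (∀ χ ∈ Irr (M ≃ₐ[K] M), (∃ x ∈ res (M ≃ₐ[K] M), χ x ≠ χ 1) → n χ = 0) ∧
        (LanglandsTunnell (K := K) M s₀ → ∀ χ ∈ Irr (M ≃ₐ[K] M), 0 ≤ n χ)) ∧
      ((∃ χ ∈ Irr (M ≃ₐ[K] M), (∃ x ∈ res (M ≃ₐ[K] M), χ x ≠ χ 1) ∧ n χ ≠ 0) →
        r = 2 ∧ CentralInvolution (M ≃ₐ[K] M) n) ∧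
      (r = 2 → ∃ D : (M ≃ₐ[K] M) →* ℂˣ,
        (∀ χ ∈ Irr (M ≃ₐ[K] M), dual D χ ∈ Irr (M ≃ₐ[K] M) ∧ n (dual D χ) = n χ) ∧
        AtMostThree n D ∧ OneSign n D) := by
  classical
  have hC := continued (K := K) (M := M) h0 h1
  set A := ArtinData.ofExtension hC with hA
  have hr' : meromorphicOrderAt (A.Lin ⊥ 1) s₀ = (r : WithTop ℤ) := (lin_bot hC h0).trans hr
  have hord : ∀ χ ∈ Irr (M ≃ₐ[K] M),
      meromorphicOrderAt (cont (artinL M χ)) s₀ = ((A.ord χ : ℤ) : WithTop ℤ) :=
    fun χ hχ => (A.coe_ord hχ).symm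
  have hzero : ∀ χ ∈ Irr (M ≃ₐ[K] M), meromorphicOrderAt (A.L χ) s₀ = 0 → A.ord χ = 0 := by
    intro χ hχ h
    rw [← A.coe_ord hχ] at h
    exact_mod_cast h
  have hpr : ∀ χ ∈ Irr (M ≃ₐ[K] M), A.ord χ ≠ 0 → pr (theta A.ord) χ ≠ 0 := by
    intro χ hχ h
    rw [pr_theta A.ord hχ]
    exact_mod_cast h
  have hdich := dich A.isHeilbronn (theta_virt A.ord) hr2 (A.theta_one hr')
  refine ⟨A.ord, fun χ hχ => ⟨cont_spec (hC.brauer χ hχ), hord χ hχ⟩, fun hq => ?_,
    fun hne => ?_, fun h2 => ?_⟩
  · rcases hdich with h | ⟨-, N, hN, h3, -⟩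
    · obtain ⟨h4, h5⟩ := artin_of_const A hr2 hr' h
      refine ⟨fun χ hχ hx => hzero χ hχ (h4 χ hχ hx), fun hLT χ hχ => ?_⟩
      have h6 := h5 ⟨LTData.ofExtension hC hLT⟩ χ hχ
      rw [← A.coe_ord hχ] at h6
      exact_mod_cast h6
    · exact absurd h3 (hq (res (M ≃ₐ[K] M) ⧸ N) (QuotientGroup.mk' N)
        (QuotientGroup.mk'_surjective N))
  · obtain ⟨χ, hχ, hx, hne⟩ := hne
    rcases hdich with h | ⟨h1, N, h2, h3, h4⟩
    · exact absurd (hzero χ hχ ((artin_of_const A hr2 hr' h).1 χ hχ hx)) hne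
    · exact ⟨h1, N, h2, h3, fun χ hχ h5 => h4 χ hχ (hpr χ hχ h5)⟩
  · subst h2
    have h1 : (theta A.ord : (M ≃ₐ[K] M) → ℂ) 1 = 2 := by
      rw [A.theta_one hr']; simp
    obtain ⟨D, -, hdual, hshape, hinv⟩ := shape_gen A.ord A.isHeilbronn h1
    refine ⟨D, hdual, ?_, ?_⟩
    · rcases hshape with ⟨μ, e1, e2, e3⟩ | ⟨χ₀, hχ₀, e1, e2, N, e3, e4, e5⟩ |
        ⟨χ₀, hχ₀, e1, e2, e2', N, e3, e4, e5⟩
      · exact Or.inl ⟨μ, e1, e2, e3⟩
      · exact Or.inr (Or.inl ⟨χ₀, hχ₀, e1, e2, N, e3, e4, e5⟩)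
      · exact Or.inr (Or.inr ⟨χ₀, hχ₀, e1, e2, e2', N, e3, e4, e5⟩)
    · exact hinv
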