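import Pool.Agent.Q286.XG.Art2
import Pool.Agent.Q286.IX.All

/-!
# Artin's conjecture: the index of Weil's form of a virtual representation, at one scale and for large scales

Let `ρ = A - B` be a virtual representation of `Gal(ℚ)`, where `A` and `B` are direct sums of representations induced by one-dimensional
characters of number fields (ray class characters of any number fields, conductors and signs).  By Brauer's theorem every character of
`Gal(K)`, `K` a number field (induced to `Gal(ℚ)`, which does not change the L-function), is of this kind, so every Artin L-function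
`L(s, ρ) = L(s, A) / L(s, B)` is covered; nothing is assumed.  `Λ(s) = Λ_A(s) / Λ_B(s)` is the completed L-function (with the poles of
the trivial character at `s = 0, 1` removed), `M = dim A + dim B` and `N = N_A N_B`.  A BAD POINT is a pole of `Λ`, or a zero off the
critical line; the orbits are `{s, 1 - conj s}`.  Artin's conjecture and the Riemann hypothesis hold for `ρ` if and only if there are no
bad points.

For `a > 0` let `W a` be Weil's quadratic form of `ρ` on the functions on `[-a, a]`, written through the poles, the conductor `N_A / N_B`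
and the Gamma factor of `ρ` and the traces `t(p^k)` of the powers of Frobenius for `p^k ≤ exp (2 a)`.  The functions have degree at
least `C a E`, `E = exp (2 a / M)` (trigonometric polynomials on `[-a, a]`); the infinite degree (the whole form domain) is included.
`k` conditions are `k` linear forms, on all functions; so a condition on the subspace given by `k` conditions says that the form has
(almost) at most `k` negative squares.

* (1) One scale.  For any `b < 2 π N^(-1/M)` there are `C, κ > 0`, `B0`, `A0` such that for ONE `a ≥ A0`, any `Y` with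
  `B0 a ≤ Y ≤ E` and any `k ≤ exp (κ Y)`: if the form is at least `-exp (-Y) ∫ |f|²` under some `k` conditions, then among any `k + 1`
  bad points of height at most `b E` which are isolated at the distance `δ = exp (-κ Y / a)` (a pole from the zeros, a zero from the
  poles and from the line) there are two which are at distance at most `2 δ`, up to the reflection `s ↦ 1 - conj s`.
  So `k` negative squares at ONE scale bound the number of the poles and of the zeros off the line up to the height `b E`, with an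
  almost exponentially small resolution.  For `k = 0` there is no isolated pole, and no isolated zero at distance more than `δ` from
  the line.
* (2) The index.  `Λ` has at most `k` orbits of bad points if and only if for all `a` the form is nonnegative under some `k`
  conditions, and if and only if for every `B`, for arbitrarily large `a`, it is at least `-exp (-B a) ∫ |f|²` under some `k` conditions.
* (3) Artin's conjecture and the Riemann hypothesis hold for `ρ` (there is an entire `Λ` with `Λ Λ_B = Λ_A` and all its zeros are on the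
  line) if and only if the form is nonnegative for all `a`, and if and only if for every `B`, for arbitrarily large `a`, it is at least
  `-exp (-B a) ∫ |f|²`.
* (4) Artin's conjecture alone.  Suppose that Weil's form `W_A` of `A` has the (finite) index `n`, that is `Λ_A` has exactly `n` orbits of
  zeros off the line (`n = 0`: the Riemann hypothesis for `A`; nothing is assumed on `B`).  Then `Λ` is entire if and only if the index of
  `q W_A + p W_ρ` is `n` for all integers `p, q ≥ 1`: the multiples of the form of `ρ` do not change the index.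
-/

set_option autoImplicit false

open Complex NumberField MeasureTheory Filter Topology
open scoped ComplexConjugate

namespace Pool.Agent.Results.MP_d2121a_nt.IndexOfWeilForm

/-! ### The L-functions -/

/-- the character `∏ sgn(x_w)^(e_w)` of the signs of `x` at the real places `w` -/
noncomputable def signs {K : Type} [Field K] [NumberField K] (e : InfinitePlace K → ℕ) (x : K) : ℂ :=
  ∏ w : InfinitePlace K, (((SignType.sign (w.embedding x).re : SignType) : ℤ) : ℂ) ^ e w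

/-- A primitive ray class character of a number field `K`, of conductor `𝔣` and signature `e`
(`e_w ∈ {0, 1}` for the real places `w`, and `e_w = 0` for the complex places), as a completely
multiplicative function `ψ` on the ideals, zero on the ideals which are not prime to `𝔣`:
`ψ((x)) = ∏ sgn(x_w)^(e_w)` for `x ≡ 1 mod 𝔣`, and no proper divisor of `𝔣` has this property.  By
Artin's reciprocity law these are the one-dimensional characters of the absolute Galois group of `K`;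
their L-functions are the Artin L-functions of the induced (monomial) representations of `Gal(ℚ)`. -/
structure RayCharacter where
  /-- the number field -/
  K : Type
  [field : Field K]
  [numberField : NumberField K]
  /-- the conductor -/
  𝔣 : Ideal (𝓞 K)
  /-- the character -/
  ψ : Ideal (𝓞 K) →*₀ ℂ
  /-- the signature -/
  e : InfinitePlace K → ℕ
  ne_bot : 𝔣 ≠ ⊥
  supp : ∀ 𝔞 : Ideal (𝓞 K), 𝔞 ≠ ⊥ → (ψ 𝔞 ≠ 0 ↔ IsCoprime 𝔞 𝔣)
  e_le : ∀ w, e w ≤ 1
  e_complex : ∀ w : InfinitePlace K, w.IsComplex → e w = 0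
  sig : ∀ x : 𝓞 K, x ≠ 0 → x - 1 ∈ 𝔣 → ψ (Ideal.span {x}) = signs e (x : K)
  prim : ∀ 𝔤 : Ideal (𝓞 K), 𝔤 ∣ 𝔣 → 𝔤 ≠ 𝔣 → ∃ x : 𝓞 K, x - 1 ∈ 𝔤 ∧
    (∀ τ : K →+* ℝ, 0 < τ (x : K)) ∧ IsCoprime (Ideal.span {x}) 𝔣 ∧ ψ (Ideal.span {x}) ≠ 1

attribute [instance] RayCharacter.field RayCharacter.numberField

namespace RayCharacter

variable (D : RayCharacter)

/-- the Artin conductor of the induced representation, `N(𝔣) |disc K|` -/
noncomputable def conductor : ℝ := (Ideal.absNorm D.𝔣 : ℝ) * |(discr D.K : ℝ)|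

/-- `L(s) = ∑ ψ(𝔞) N(𝔞)^(-s)` over the ideals `𝔞 ≠ 0` (note that `ψ(0) = 0`), for large real part -/
noncomputable def L (s : ℂ) : ℂ :=
  ∑' 𝔞 : Ideal (𝓞 D.K), D.ψ 𝔞 * ((Ideal.absNorm 𝔞 : ℕ) : ℂ) ^ (-s)

open Classical in
/-- the Gamma factor `∏_{w real} Γ_ℝ(s + e_w) ∏_{w complex} Γ_ℂ(s)` -/
noncomputable def gamma (s : ℂ) : ℂ :=
  ∏ w : InfinitePlace D.K, if w.IsReal then Gammaℝ (s + D.e w) else Gammaℂ s

open Classical in
/-- the order of the pole of `L` at `s = 1`: `1` for the trivial character (the Dedekind zeta function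
of `K`) and `0` otherwise -/
noncomputable def pole : ℕ := if ∀ 𝔞 : Ideal (𝓞 D.K), 𝔞 ≠ ⊥ → D.ψ 𝔞 = 1 then 1 else 0

end RayCharacter

/-- the dimension of the induced representation, that is the degree of the L-function -/
noncomputable def RayCharacter.dim (D : RayCharacter) : ℕ := Module.finrank ℚ D.K

/-- the order of the pole of the L-function of the direct sum `A` of the representations of `Gal(ℚ)` induced by the characters in the list -/
noncomputable def pole (A : List RayCharacter) : ℕ := (A.map RayCharacter.pole).sum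

/-- the conductor of `A` -/
noncomputable def conductor (A : List RayCharacter) : ℝ := (A.map RayCharacter.conductor).prod

/-- the dimension of `A` -/
noncomputable def dim (A : List RayCharacter) : ℕ := (A.map RayCharacter.dim).sum

/-- the Gamma factor of `A` -/
noncomputable def gamma (A : List RayCharacter) (s : ℂ) : ℂ := (A.map fun D => D.gamma s).prod

/-- the L-function of `A`, for large real part -/
noncomputable def L (A : List RayCharacter) (s : ℂ) : ℂ := (A.map fun D => D.L s).prod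

/-- `Λ` is the completed L-function of `A`, without the poles at `s = 0, 1`: it is entire (hence unique) and
`Λ(s) = (s (s - 1))^r N^(s/2) γ(s) L(s)` for large real part. -/
def IsCompleted (A : List RayCharacter) (Λ : ℂ → ℂ) : Prop := Differentiable ℂ Λ ∧ ∃ σ : ℝ, ∀ s : ℂ, σ ≤ s.re →
  Λ s = (s * (s - 1)) ^ pole A * ((conductor A : ℂ) ^ (s / 2) * gamma A s) * L A s

/-- `t(p^k)` is the trace of the `k`-th power of Frobenius at `p` on the inertia invariants of the virtual representation `A - B`: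
`-L'/L(s) = ∑ Λ(n) t(n) n^(-s)` for `L = L_A / L_B` and large real part, with von Mangoldt's function (the values of `t` outside of the
prime powers are arbitrary). -/
def IsTrace (A B : List RayCharacter) (t : ℕ → ℂ) : Prop := ∃ σ : ℝ, ∀ s : ℂ, σ ≤ s.re →
  HasSum (fun n : ℕ => ((ArithmeticFunction.vonMangoldt n : ℝ) : ℂ) * t n * (n : ℂ) ^ (-s)) (-logDeriv (fun z => L A z / L B z) s)

/-! ### The quadratic form -/

/-- The trigonometric polynomials of degree at most `n` on `[-a, a]`, extended by `0`. -/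
def Trig (a : ℝ) (n : ℕ) (f : ℝ → ℂ) : Prop := ∃ c : ℤ → ℂ, ∀ x : ℝ,
  f x = if |x| ≤ a then ∑ k ∈ Finset.Icc (-(n : ℤ)) n, c k * cexp ((Real.pi * k * x / a : ℝ) * I) else 0

/-- The Mellin transform of `f` in the logarithmic variable, centred at `1/2`. -/
noncomputable def M (f : ℝ → ℂ) (s : ℂ) : ℂ := ∫ x : ℝ, f x * cexp ((s - 1 / 2) * x)

/-- Weil's quadratic form of the virtual representation `A - B` for functions supported in `[-a, a]`: the poles, the conductor and the
Gamma factor, and the prime powers `n ≤ exp (2 a)`. -/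
noncomputable def W (A B : List RayCharacter) (t : ℕ → ℂ) (a : ℝ) (f : ℝ → ℂ) : ℝ :=
  2 * ((pole A : ℝ) - pole B) * (M f 1 * (starRingEnd ℂ) (M f 0)).re +
    1 / (2 * Real.pi) * (∫ x : ℝ, (Real.log (conductor A / conductor B) +
      2 * (logDeriv (fun z => gamma A z / gamma B z) (1 / 2 + x * I)).re) * ‖M f (1 / 2 + x * I)‖ ^ 2) -
    2 * (∑ n ∈ Finset.Icc 1 ⌊Real.exp (2 * a)⌋₊, ArithmeticFunction.vonMangoldt n / Real.sqrt n * t n *
      ∫ x : ℝ, f (x + Real.log n) * (starRingEnd ℂ) (f x)).re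

/-- The form domain: the square integrable functions `f` with support in `[-a, a]` and
`∫ log (3 + |t|) |M f (1/2 + i t)|² dt < ∞`. -/
def FormDomain (a : ℝ) (f : ℝ → ℂ) : Prop := MemLp f 2 volume ∧ (∀ x : ℝ, a < |x| → f x = 0) ∧
  Integrable fun t : ℝ => Real.log (3 + |t|) * ‖M f (1 / 2 + t * I)‖ ^ 2

/-- The functions of degree at most `ν ≤ ∞`: trigonometric polynomials, or (`ν = ∞`) all functions in the form domain. -/
def Degree (a : ℝ) (ν : ℕ∞) (f : ℝ → ℂ) : Prop := (∃ n : ℕ, ν = n ∧ Trig a n f) ∨ (ν = ⊤ ∧ FormDomain a f)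

/-- The degree `ν ≤ ∞` is at least `x`. -/
def Large (x : ℝ) (ν : ℕ∞) : Prop := ∀ n : ℕ, ν = n → x ≤ n

/-- `F ≥ -ε ∫ |f|²` for the functions of degree at most `ν` on `[-a, a]` which satisfy some `k` linear conditions. -/
def Bounded (F : ℝ → (ℝ → ℂ) → ℝ) (a : ℝ) (ν : ℕ∞) (k : ℕ) (ε : ℝ) : Prop := ∃ l : Fin k → ((ℝ → ℂ) →ₗ[ℂ] ℂ),
  ∀ f : ℝ → ℂ, Degree a ν f → (∀ i, l i f = 0) → -(ε * ∫ y : ℝ, ‖f y‖ ^ 2) ≤ F a f

/-- The index of the family `F` of forms is `n`: this is the least number of linear conditions under which, for every `b`, for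
arbitrarily large `a`, `F a f ≥ -exp (-b a) ∫ |f|²` on the form domain. -/
def Index (F : ℝ → (ℝ → ℂ) → ℝ) (n : ℕ) : Prop := (∀ b a₀ : ℝ, ∃ a : ℝ, a₀ ≤ a ∧ Bounded F a ⊤ n (Real.exp (-(b * a)))) ∧
  ∀ k : ℕ, (∀ b a₀ : ℝ, ∃ a : ℝ, a₀ ≤ a ∧ Bounded F a ⊤ k (Real.exp (-(b * a)))) → n ≤ k

/-! ### The poles, and the zeros off the line -/

/-- the order of `Λ_A / Λ_B` at `s`: positive for a zero, negative for a pole -/
noncomputable def order (ΛA ΛB : ℂ → ℂ) (s : ℂ) : ℤ := (analyticOrderNatAt ΛA s : ℤ) - analyticOrderNatAt ΛB s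

/-- `s` is a pole, or a zero off the critical line; `ω` gives the orders. -/
def Bad (ω : ℂ → ℤ) (s : ℂ) : Prop := ω s < 0 ∨ (0 < ω s ∧ s.re ≠ 1 / 2)

/-- `s` is a pole at distance more than `δ` from the zeros, or a zero at distance more than `δ` from the poles and from the line. -/
def IsolatedBad (ω : ℂ → ℤ) (δ : ℝ) (s : ℂ) : Prop :=
  (ω s < 0 ∧ ∀ s' : ℂ, 0 < ω s' → δ < ‖s' - s‖) ∨ (0 < ω s ∧ δ < |s.re - 1 / 2| ∧ ∀ s' : ℂ, ω s' < 0 → δ < ‖s' - s‖)

/-- There are at most `k` orbits `{s, 1 - conj s}` of bad points. -/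
def AtMost (ω : ℂ → ℤ) (k : ℕ) : Prop := ∀ p : Fin (k + 1) → ℂ, (∀ j, Bad ω (p j)) →
  ∃ i j, i ≠ j ∧ (p i = p j ∨ p i = 1 - (starRingEnd ℂ) (p j))

/-- There are exactly `n` orbits of bad points. -/
def Exactly (ω : ℂ → ℤ) (n : ℕ) : Prop := AtMost ω n ∧ ∀ k : ℕ, AtMost ω k → n ≤ k

/-! ### The proof -/

open Pool.Agent.Y773 in
lemma inD_ray (D : RayCharacter) : Pool.Agent.Q286.TR.InD (Module.finrank ℚ D.K) D.pole D.conductor D.gamma D.L := by
  classical
  obtain ⟨K, 𝔣, ψ, e, ne_bot, supp, e_le, e_complex, sig, prim⟩ := D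
  set D : RayCharacter := ⟨K, 𝔣, ψ, e, ne_bot, supp, e_le, e_complex, sig, prim⟩ with hD
  -- the signs
  have hsg : ∀ x : K, G.sg e x = signs e x := by
    intro x
    unfold G.sg signs
    refine Finset.prod_congr rfl fun w _ => ?_
    rcases w.isReal_or_isComplex with hw | hw
    · rw [G.rl_of_isReal hw]
    · rw [e_complex w hw, pow_zero, pow_zero]
  -- the Gamma factor
  have hgam : D.gamma = fun s => (∏ φ : K →+* ℂ, Gammaℝ (s + (G.ex e φ : ℂ))) := by
    funext s
    rw [G.prod_ex e fun n => Gammaℝ (s + (n : ℂ))]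
    unfold RayCharacter.gamma
    refine Finset.prod_congr rfl fun w _ => ?_
    split_ifs with hw
    · rfl
    · rw [Nat.cast_zero, add_zero, Nat.cast_one, Gammaℝ_mul_Gammaℝ_add_one]
  rw [hgam]
  exact Pool.Agent.Q286.TR.inD_ray ne_bot supp e_le e_complex (fun x h0 h1 => by rw [sig x h0 h1, hsg]) prim rfl

lemma inD {A : List RayCharacter} (hA : A ≠ []) : Pool.Agent.Q286.TR.InD (dim A) (pole A) (conductor A) (gamma A) (L A) :=
  Pool.Agent.Q286.TR.InD.list RayCharacter.dim RayCharacter.pole RayCharacter.conductor RayCharacter.gamma RayCharacter.L A hA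
    fun c _ => inD_ray c

lemma W_eq (A B : List RayCharacter) (t : ℕ → ℂ) : W A B t =
    Pool.Agent.Q286.IX.WZ ((pole A : ℤ) - pole B) (conductor A / conductor B) (fun s => gamma A s / gamma B s) t := by
  funext a f
  unfold W Pool.Agent.Q286.IX.WZ
  push_cast
  rfl

lemma W_nil (A : List RayCharacter) (t : ℕ → ℂ) (a : ℝ) (f : ℝ → ℂ) : W A [] t a f =
    Pool.Agent.Q286.TR.WG (pole A) (conductor A) (gamma A) t a f := by
  have h1 : pole [] = 0 := rfl
  have h2 : conductor [] = 1 := rfl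
  have h3 : (fun z => gamma A z / gamma [] z) = gamma A := by
    funext z
    show gamma A z / 1 = _
    rw [div_one]
  unfold W Pool.Agent.Q286.TR.WG
  rw [h1, h2, h3, Nat.cast_zero, sub_zero, div_one]
  rfl

lemma tr_nil {A : List RayCharacter} {t : ℕ → ℂ} (h : IsTrace A [] t) : Pool.Agent.Q286.TR.IsTr (L A) t := by
  have h3 : (fun z => L A z / L [] z) = L A := by
    funext z
    show L A z / 1 = _
    rw [div_one]
  unfold IsTrace at h
  rw [h3] at h
  exact h

open Pool.Agent.Q286 in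
lemma atMost_iff {ω : ℂ → ℤ} {k : ℕ} : AtMost ω k ↔ IX.AtMost (1 / 2) ω k := by
  have e : ∀ s : ℂ, 2 * (((1 / 2 : ℝ)) : ℂ) - (starRingEnd ℂ) s = 1 - (starRingEnd ℂ) s := fun s => by push_cast; ring
  unfold AtMost IX.AtMost Bad
  simp only [e]

open Pool.Agent.Q286 in
lemma exactly_iff {ω : ℂ → ℤ} {n : ℕ} : Exactly ω n ↔ IX.Exactly (1 / 2) ω n := by
  unfold Exactly IX.Exactly
  rw [atMost_iff]
  refine and_congr_right fun _ => forall_congr' fun k => ?_
  rw [atMost_iff]

open Pool.Agent.Q286 in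
lemma bad_iff {ω : ℂ → ℤ} {δ : ℝ} {s : ℂ} : IsolatedBad ω δ s ↔ IX.BadP (1 / 2) ω δ s := Iff.rfl

open Pool.Agent.Q286 in
lemma cond_iff {F : ℝ → (ℝ → ℂ) → ℝ} {k : ℕ} : (∀ b a₀ : ℝ, ∃ a : ℝ, a₀ ≤ a ∧ Bounded F a ⊤ k (Real.exp (-(b * a)))) ↔
    IX.Cond F (XG.Deg (1 / 2)) k := by
  unfold Bounded IX.Cond
  refine forall_congr' fun b => forall_congr' fun a₀ => ?_
  constructor
  · rintro ⟨a, ha, l, hl⟩
    exact ⟨a, l, ha, hl⟩
  · rintro ⟨a, l, ha, hl⟩
    exact ⟨a, ha, l, hl⟩

open Pool.Agent.Q286 in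
lemma index_iff {F : ℝ → (ℝ → ℂ) → ℝ} {n : ℕ} : Index F n ↔ IX.Index F (XG.Deg (1 / 2)) n := by
  unfold Index IX.Index
  rw [cond_iff]
  refine and_congr_right fun _ => forall_congr' fun j => ?_
  rw [cond_iff]

open Pool.Agent.Q286 in
/-- **The theorem.** -/
theorem result (A B : List RayCharacter) (hA : A ≠ []) (hB : B ≠ []) :
    (∃! Λ : ℂ → ℂ, IsCompleted A Λ) ∧ (∃! Λ : ℂ → ℂ, IsCompleted B Λ) ∧ (∃ t : ℕ → ℂ, IsTrace A B t) ∧
    (∀ t t' : ℕ → ℂ, IsTrace A B t → IsTrace A B t' → ∀ n : ℕ, IsPrimePow n → t n = t' n) ∧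
    ∀ (ΛA ΛB : ℂ → ℂ) (t : ℕ → ℂ), IsCompleted A ΛA → IsCompleted B ΛB → IsTrace A B t →
    -- (1) one scale
    (∀ b : ℝ, b < 2 * Real.pi * (conductor A * conductor B) ^ (-(1 / (dim A + dim B : ℝ))) → ∃ C κ a₀ b₀ : ℝ, 0 < C ∧ 0 < κ ∧
      ∀ (a Y : ℝ) (ν : ℕ∞) (k : ℕ), a₀ ≤ a → b₀ * a ≤ Y → Y ≤ Real.exp (2 * a / (dim A + dim B)) →
        Large (C * a * Real.exp (2 * a / (dim A + dim B))) ν → (k : ℝ) ≤ Real.exp (κ * Y) → Bounded (W A B t) a ν k (Real.exp (-Y)) →
        ∀ p : Fin (k + 1) → ℂ, (∀ j, IsolatedBad (order ΛA ΛB) (Real.exp (-(κ * Y / a))) (p j) ∧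
          |(p j).im| ≤ b * Real.exp (2 * a / (dim A + dim B))) →
        ∃ i j, i ≠ j ∧ (‖p i - p j‖ ≤ 2 * Real.exp (-(κ * Y / a)) ∨ ‖p i - (1 - (starRingEnd ℂ) (p j))‖ ≤ 2 * Real.exp (-(κ * Y / a)))) ∧
    -- (2) the index
    (∀ k : ℕ, AtMost (order ΛA ΛB) k ↔ ∀ a : ℝ, 0 < a → ∀ ν : ℕ∞, Bounded (W A B t) a ν k 0) ∧
    (∃ C : ℝ, 0 < C ∧ ∀ k : ℕ, AtMost (order ΛA ΛB) k ↔ ∀ b a₀ : ℝ, ∃ (a : ℝ) (ν : ℕ∞), a₀ ≤ a ∧
      Large (C * a * Real.exp (2 * a / (dim A + dim B))) ν ∧ Bounded (W A B t) a ν k (Real.exp (-(b * a)))) ∧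
    -- (3) Artin's conjecture with the Riemann hypothesis
    ((∃ Λ : ℂ → ℂ, Differentiable ℂ Λ ∧ (∀ s, Λ s * ΛB s = ΛA s) ∧ ∀ s, Λ s = 0 → s.re = 1 / 2) ↔
      ∀ (a : ℝ) (ν : ℕ∞) (f : ℝ → ℂ), 0 < a → Degree a ν f → 0 ≤ W A B t a f) ∧
    ((∃ Λ : ℂ → ℂ, Differentiable ℂ Λ ∧ (∀ s, Λ s * ΛB s = ΛA s) ∧ ∀ s, Λ s = 0 → s.re = 1 / 2) ↔
      ∀ b a₀ : ℝ, ∃ a : ℝ, a₀ ≤ a ∧ ∀ f : ℝ → ℂ, FormDomain a f → -(Real.exp (-(b * a)) * ∫ y : ℝ, ‖f y‖ ^ 2) ≤ W A B t a f) ∧
    -- (4) Artin's conjecture alone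
    ∀ (tA : ℕ → ℂ) (n : ℕ), IsTrace A [] tA →
      (Index (W A [] tA) n ↔ Exactly (fun s => (analyticOrderNatAt ΛA s : ℤ)) n) ∧
      (Index (W A [] tA) n → ((∃ Λ : ℂ → ℂ, Differentiable ℂ Λ ∧ ∀ s, Λ s * ΛB s = ΛA s) ↔
        ∀ p q : ℕ, 1 ≤ p → 1 ≤ q → Index (fun a f => q * W A [] tA a f + p * W A B t a f) n)) := by
  obtain ⟨L1, L2, ⟨hm1, hQ1⟩, ⟨hm2, hQ2⟩, ⟨hc1, hu1⟩, ⟨hc2, hu2⟩, ⟨t0, ht0⟩, h1, h2, h3⟩ := IX.quot4 IX.jx (inD hA) (inD hB) (1 / 2) (1 / 2)
  refine ⟨⟨L1.Λ, hc1, fun Λ' h => hu1 Λ' h⟩, ⟨L2.Λ, hc2, fun Λ' h => hu2 Λ' h⟩, ⟨t0, ht0⟩, fun t t' h h' n hn => ?_, fun ΛA ΛB t hΛA hΛB ht => ?_⟩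
  · have h1 := TR.tr_uniq (G := fun s => L A s / L B s) h h' n
    refine mul_left_cancel₀ ?_ h1
    exact_mod_cast (ArithmeticFunction.vonMangoldt_ne_zero_iff.2 hn)
  have e1 : ΛA = L1.Λ := hu1 _ hΛA
  have e2 : ΛB = L2.Λ := hu2 _ hΛB
  have es : ∀ s : ℂ, s - (((1 / 2 : ℝ)) : ℂ) + 1 / 2 = s := fun s => by push_cast; ring
  simp only [es, ← e1, ← e2] at h1 h2 h3
  have H := h1 t ht
  rw [← W_eq] at H
  have hord : (fun s => (analyticOrderNatAt ΛA s : ℤ) - analyticOrderNatAt ΛB s) = order ΛA ΛB := rfl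
  rw [hord] at H
  have eM : (((dim A + dim B : ℕ)) : ℝ) = dim A + dim B := by push_cast; rfl
  rw [eM] at H
  have er : ∀ s : ℂ, 2 * (((1 / 2 : ℝ)) : ℂ) - (starRingEnd ℂ) s = 1 - (starRingEnd ℂ) s := fun s => by push_cast; ring
  obtain ⟨C, hC, hidx⟩ := H.idx
  have weak : ∀ k : ℕ, (∀ b a₀ : ℝ, ∃ (a : ℝ) (ν : ℕ∞), a₀ ≤ a ∧
      Large (C * a * Real.exp (2 * a / (dim A + dim B))) ν ∧ Bounded (W A B t) a ν k (Real.exp (-(b * a)))) → AtMost (order ΛA ΛB) k := by
    intro k h
    refine atMost_iff.2 ((hidx k).2 fun b a₀ => ?_)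
    obtain ⟨a, ν, ha, hν, l, hl⟩ := h b a₀
    exact ⟨a, ν, l, ha, hν, hl⟩
  have strong : ∀ k : ℕ, AtMost (order ΛA ΛB) k → ∀ a : ℝ, 0 < a → ∀ ν : ℕ∞, Bounded (W A B t) a ν k 0 := by
    intro k h a ha ν
    obtain ⟨l, hl⟩ := (hidx k).1 (atMost_iff.1 h) a ha
    refine ⟨l, fun f hf hlf => ?_⟩
    rw [zero_mul, neg_zero]
    exact hl ν f hf hlf
  have mono : ∀ {a : ℝ} {ν : ℕ∞} {k : ℕ} (b : ℝ), Bounded (W A B t) a ν k 0 → Bounded (W A B t) a ν k (Real.exp (-(b * a))) := by
    rintro a ν k b ⟨l, hl⟩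
    refine ⟨l, fun f hf hlf => le_trans ?_ (hl f hf hlf)⟩
    have h2 : 0 ≤ ∫ y : ℝ, ‖f y‖ ^ 2 := integral_nonneg fun y => by positivity
    have h3 := mul_nonneg (Real.exp_pos (-(b * a))).le h2
    rw [zero_mul]
    linarith
  have top : ∀ x : ℝ, Large x ⊤ := fun x n hn => absurd hn.symm (ENat.natCast_ne_top n)
  have hcrit := IX.crit IX.jx.quo (f := ΛA) (g := ΛB) hΛA.1 hΛB.1 (by rw [e1]; exact IX.ne_zero L1) (by rw [e2]; exact IX.ne_zero L2) (1 / 2)
  rw [hord, ← atMost_iff] at hcrit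
  refine ⟨fun b hb => ?_, fun k => ⟨strong k, fun h => ?_⟩, ⟨C, hC, fun k => ⟨fun h b a₀ => ?_, weak k⟩⟩, ?_, ?_, fun tA n htA => ?_⟩
  · obtain ⟨C', κ, a₀, b₀, hC', hκ, h⟩ := H.one b hb
    refine ⟨C', κ, a₀, b₀, hC', hκ, fun a Y ν k ha hY1 hY2 hν hk hB p hp => ?_⟩
    obtain ⟨l, hl⟩ := hB
    obtain ⟨i, j, hij, h3⟩ := h a Y ν k l ha hY1 hY2 hν hk hl p hp
    refine ⟨i, j, hij, ?_⟩
    rw [er] at h3
    exact h3
  · exact weak k fun b a₀ => ⟨max a₀ 1, ⊤, le_max_left _ _, top _, mono b (h _ (lt_of_lt_of_le one_pos (le_max_right _ _)) ⊤)⟩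
  · exact ⟨max a₀ 1, ⊤, le_max_left _ _, top _, mono b (strong k h _ (lt_of_lt_of_le one_pos (le_max_right _ _)) ⊤)⟩
  · rw [← hcrit]
    constructor
    · intro h a ν f ha hf
      obtain ⟨l, hl⟩ := strong 0 h a ha ν
      have := hl f hf (fun i => i.elim0)
      rwa [zero_mul, neg_zero] at this
    · intro h
      refine weak 0 fun b a₀ => ⟨max a₀ 1, ⊤, le_max_left _ _, top _, mono b ⟨fun i => i.elim0, fun f hf _ => ?_⟩⟩
      rw [zero_mul, neg_zero]
      exact h _ ⊤ f (lt_of_lt_of_le one_pos (le_max_right _ _)) hf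
  · rw [← hcrit]
    constructor
    · intro h b a₀
      obtain ⟨l, hl⟩ := mono b (strong 0 h _ (lt_of_lt_of_le one_pos (le_max_right a₀ 1)) ⊤)
      exact ⟨max a₀ 1, le_max_left _ _, fun f hf => hl f (Or.inr ⟨rfl, hf⟩) (fun i => i.elim0)⟩
    · intro h
      refine weak 0 fun b a₀ => ?_
      obtain ⟨a, ha, hf⟩ := h b a₀
      refine ⟨a, ⊤, ha, top _, fun i => i.elim0, fun f hf' _ => hf f ?_⟩
      rcases hf' with ⟨n, hn, -⟩ | ⟨-, hf'⟩
      · exact absurd hn.symm (ENat.natCast_ne_top n)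
      · exact hf'
  · have eWA : W A [] tA = TR.WG (pole A) (conductor A) (gamma A) tA := by
      funext a f
      exact W_nil A tA a f
    rw [eWA, W_eq]
    refine ⟨?_, fun hn => ?_⟩
    · rw [index_iff, exactly_iff]
      exact (h2 tA (tr_nil htA) n).symm
    · refine (h3 t tA ht (tr_nil htA) n (index_iff.1 hn)).trans ?_
      refine forall_congr' fun p => forall_congr' fun q => forall_congr' fun _ => forall_congr' fun _ => ?_
      exact index_iff.symm

end Pool.Agent.Results.MP_d2121a_nt.IndexOfWeilForm
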