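import Mathlib
import Pool.Agent.Q92.AR.Use
import Pool.Agent.Q92.AR.All
import Pool.Agent.Q7.DB.RealNum

/-!
# Artin's holomorphy conjecture at real points for solvable groups

`M/K` is a solvable Galois extension of number fields with group `M ≃ₐ[K] M`;
`Pool.Agent.H541R3.ART.Irr G` is the set of irreducible complex characters of the group `G`.

`Pool.Agent.Q92.AR.artinL M χ` is the Artin L-function `L(s, χ)` of a class function `χ` of the Galois
group, for `Re s > 1`: `exp ∑ χ(Frob_v ^ n) / (n q_v ^ (n s))` over `n ≥ 1` and the primes `v` of `K` which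
are unramified in `M`. The Euler factors of the finitely many ramified primes, which are left out,
have no zeros and poles for `Re s > 0`. `Pool.Agent.Q92.AR.cont f` is the meromorphic continuation to
`ℂ` of a function `f` given for `Re s > 1`; `NumberField.dedekindZeta M` is the Dedekind zeta function
of `M`. The continuations exist by Artin's reciprocity law, Hecke's theorem and Brauer's induction
theorem, which are proved in the library `Pool.Agent.Q92.AR`. `LanglandsTunnell M s₀` is the theorem of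
Langlands and Tunnell for the subgroups of the Galois group; it is used in parts (2) and (3) only,
part (1) is proved without assumption.

`Pool.Agent.W446.AS.Frame X F D` : the centre `Z` of `X` is cyclic and contains all abelian normal
subgroups of `X`, and `F` is a normal subgroup of `X` containing `Z` such that `F / Z` is abelian of
order `D ^ 2`, `D > 1`, and the centraliser of `F` in `X` is `Z`.
-/

set_option autoImplicit false

open Pool.Agent.H541R3.ART Pool.Agent.W446.AS Pool.Agent.Q7.DB ComplexConjugate Pool.Agent.Q92.AR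

/-- Let `M/K` be a solvable Galois extension of number fields with group `G`, let `s₀` be a positive
real number, `s₀ ≠ 1`, and let `r` be the order of the Dedekind zeta function of `M` at `s₀`.
(1) No `L(s, χ)`, `χ` irreducible, has a pole at `s₀` if `|G|` is odd, all its prime divisors are at
least `P ≥ 3` and `r ≤ 4 P - 3`; or if `|G|` is odd, not divisible by `375` and `1215` and `r ≤ 21`; or
if `|G|` is prime to six and `r ≤ 25`.
(2) (With the theorem of Langlands and Tunnell.) If some `L(s, χ)` has a pole at `s₀`, then some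
section `X` of `G` has a frame `F` of a degree `D ≠ 2` such that `4 D ≤ r`, or `2 D ≤ r` and `X / F` is
cyclic, or the centre of `X` has order two and `2 D ≤ r`, or the centre of `X` has order two and
`D ≤ r` and `X / F` is cyclic.
(3) (With the theorem of Langlands and Tunnell.) No `L(s, χ)` has a pole at `s₀` if `r ≤ 3`, or `r ≤ 5`
and `160 ∤ |G|`, or `r ≤ 7` and `160, 108 ∤ |G|`. -/
theorem Pool.Agent.Results.MP_d2121a_nt.RealPointsSolvable.result
    (K M : Type) [Field K] [NumberField K] [Field M] [NumberField M] [Algebra K M] [IsGalois K M]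
    (hsol : Group.IsSolvable (M ≃ₐ[K] M)) (s₀ : ℂ) (hs : conj s₀ = s₀) (h0 : 0 < s₀.re)
    (h1 : s₀ ≠ 1) (r : ℕ)
    (hr : meromorphicOrderAt (cont (NumberField.dedekindZeta M)) s₀ = (r : WithTop ℤ)) :
    (Odd (Nat.card (M ≃ₐ[K] M)) →
      (∀ P : ℕ, 3 ≤ P → r ≤ 4 * P - 3 →
        (∀ q, q.Prime → q ∣ Nat.card (M ≃ₐ[K] M) → P ≤ q) →
        ∀ χ ∈ Irr (M ≃ₐ[K] M), 0 ≤ meromorphicOrderAt (cont (artinL M χ)) s₀)
      ∧ (r ≤ 21 → ¬ 375 ∣ Nat.card (M ≃ₐ[K] M) → ¬ 1215 ∣ Nat.card (M ≃ₐ[K] M) →
        ∀ χ ∈ Irr (M ≃ₐ[K] M), 0 ≤ meromorphicOrderAt (cont (artinL M χ)) s₀)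
      ∧ (r ≤ 25 → ¬ 3 ∣ Nat.card (M ≃ₐ[K] M) →
        ∀ χ ∈ Irr (M ≃ₐ[K] M), 0 ≤ meromorphicOrderAt (cont (artinL M χ)) s₀)) ∧
    (LanglandsTunnell (K := K) M s₀ →
      ((∃ χ ∈ Irr (M ≃ₐ[K] M), meromorphicOrderAt (cont (artinL M χ)) s₀ < 0) →
        ∃ (H : Subgroup (M ≃ₐ[K] M)) (X : Type) (_ : Group X) (f : H →* X) (F : Subgroup X)
          (D : ℕ), Function.Surjective f ∧ Frame X F D ∧ D ≠ 2 ∧
          ((4 * D ≤ r ∨ (2 * D ≤ r ∧ ∃ g, F ⊔ Subgroup.zpowers g = ⊤)) ∨
            (Nat.card (Subgroup.center X) = 2 ∧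
              (2 * D ≤ r ∨ (D ≤ r ∧ ∃ g, F ⊔ Subgroup.zpowers g = ⊤)))))
      ∧ (r ≤ 7 → (4 ≤ r → ¬ 160 ∣ Nat.card (M ≃ₐ[K] M)) →
        (6 ≤ r → ¬ 108 ∣ Nat.card (M ≃ₐ[K] M)) →
        ∀ χ ∈ Irr (M ≃ₐ[K] M), 0 ≤ meromorphicOrderAt (cont (artinL M χ)) s₀)) := by
  have hC := continued (K := K) (M := M) h0 h1
  set A := ArtinData.ofExtension hC with hA
  have hr' : meromorphicOrderAt (A.Lin ⊥ 1) s₀ = (r : WithTop ℤ) := (lin_bot hC h0).trans hr
  have hRef : Reflects A := reflects_ofExtension hC
  refine ⟨fun hodd => ⟨?_, ?_, ?_⟩, fun hLT => ?_⟩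
  · intro P hP hrP hq
    exact real_solvable False hs A hRef (fun h => h.elim) hr'
      (rfree_of_odd hodd (free_least False hP (by omega) hq))
  · intro hr21 h375 h1215
    exact real_solvable False hs A hRef (fun h => h.elim) hr'
      (rfree_of_odd hodd (free_ten False (by omega) hodd h375 h1215))
  · intro hr25 h3
    refine real_solvable False hs A hRef (fun h => h.elim) hr'
      (rfree_of_odd hodd (free_twelve False (by omega) ?_))
    have h1 : (Nat.card (M ≃ₐ[K] M)).Coprime (2 * 3) :=
      Nat.Coprime.mul_right ((Nat.coprime_two_right).mpr hodd)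
        ((Nat.Prime.coprime_iff_not_dvd Nat.prime_three).mpr h3).symm
    exact h1
  · have hB : Nonempty (TwoDim A) := ⟨TwoDim.ofExtension hC hLT⟩
    refine ⟨?_, ?_⟩
    · rintro ⟨χ, hχ, hneg⟩
      by_contra hcon
      have hfree : RFree True r (M ≃ₐ[K] M) := by
        rintro H X _ f hf ⟨F, D, hF, hlt, hobs⟩
        exact hcon ⟨H, X, _, f, F, D, hf, hF, hlt trivial, hobs⟩
      exact absurd (real_solvable True hs A hRef (fun _ => hB) hr' hfree χ hχ) (not_le.mpr hneg)
    · intro hr7 h160 h108
      exact real_solvable True hs A hRef (fun _ => hB) hr' (rfree_seven hr7 h160 h108)
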